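import Mathlib

open FreeGroup hiding map_mul map_inv

namespace Pool.Agent.H.MP_1babb5_al

@[ext] structure Aff (R : Type) [CommRing R] where
  u : Rˣ
  d : R

variable {R : Type} [CommRing R]

instance : Mul (Aff R) := ⟨fun a b => ⟨a.u * b.u, a.d + a.u * b.d⟩⟩
instance : One (Aff R) := ⟨⟨1, 0⟩⟩
instance : Inv (Aff R) := ⟨fun a => ⟨a.u⁻¹, -(a.u⁻¹ * a.d)⟩⟩
@[simp] theorem mul_u (a b : Aff R) : (a * b).u = a.u * b.u := rfl
@[simp] theorem mul_d (a b : Aff R) : (a * b).d = a.d + a.u * b.d := rfl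
@[simp] theorem one_u : (1 : Aff R).u = 1 := rfl
@[simp] theorem one_d : (1 : Aff R).d = 0 := rfl
@[simp] theorem inv_u (a : Aff R) : a⁻¹.u = a.u⁻¹ := rfl
@[simp] theorem inv_d (a : Aff R) : a⁻¹.d = -(↑a.u⁻¹ * a.d) := rfl
instance : Group (Aff R) := Group.ofLeftAxioms (fun a b c => by ext <;> simp [mul_assoc]; ring) (fun a => by ext <;> simp)
  fun a => by ext <;> simp

def pu : Aff R →* Rˣ := ⟨⟨Aff.u, rfl⟩, fun _ _ => rfl⟩

theorem cube (a : Aff R) : (a ^ 3).d = (1 + a.u + a.u ^ 2) * a.d := by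
  rw [show a ^ 3 = a * (a * a) by simp [pow_succ, mul_assoc]]; simp; ring

variable {α : Type} [DecidableEq α]

def cb (L : List α) : FreeGroup α := (L.map fun i => of i ^ 3).prod

def Av (t : α) : Subgroup (FreeGroup α) := Subgroup.closure (of '' {i | i ≠ t})

omit [DecidableEq α] in
theorem mk_mem {t : α} {l : List (α × Bool)} (h : ∀ y ∈ l, y.1 ≠ t) : mk l ∈ Av t := by
  induction l with
  | nil => exact one_mem _
  | cons y l ih =>
    rw [show mk (y :: l) = mk [y] * mk l from rfl]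
    refine mul_mem ?_ (ih fun z hz => h z (List.mem_cons_of_mem _ hz))
    have : of y.1 ∈ Av t := Subgroup.subset_closure ⟨_, h y List.mem_cons_self, rfl⟩
    obtain ⟨i, _ | _⟩ := y
    · exact inv_mem this
    · exact this

omit [DecidableEq α] in
theorem Av_le {G : Type} [Group G] {t : α} (f : FreeGroup α →* G) (K : Subgroup G) (h : ∀ i ≠ t, f (of i) ∈ K) {g} (hg : g ∈ Av t) :
    f g ∈ K := (Subgroup.closure_le (K.comap f)).2 (by rintro _ ⟨i, hi, rfl⟩; exact h i hi) hg

omit [DecidableEq α] in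
theorem cb_mem {G : Type} [Group G] (f : FreeGroup α →* G) (K : Subgroup G) {L : List α} (h : ∀ i ∈ L, f (of i) ^ 3 ∈ K) :
    f (cb L) ∈ K := by
  rw [cb, map_list_prod]
  refine list_prod_mem fun x hx => ?_
  simp only [List.map_map, List.mem_map, Function.comp, map_pow] at hx
  obtain ⟨i, hi, rfl⟩ := hx
  exact h i hi

theorem split {β : Type} (P : β → Bool) (l : List β) (n : ℕ) (h : l.countP P = n + 1) :
    ∃ p c q, l = p ++ c :: q ∧ (∀ y ∈ p, ¬ P y) ∧ P c ∧ q.countP P = n := by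
  induction l with
  | nil => simp at h
  | cons y l ih =>
    by_cases e : P y
    · exact ⟨[], y, l, rfl, by simp, e, by simpa [e] using h⟩
    · obtain ⟨p, c, q, rfl, a, b, d⟩ := ih (by simpa [e] using h)
      exact ⟨y :: p, c, q, rfl, List.forall_mem_cons.2 ⟨e, a⟩, b, d⟩

def stab : Subgroup (Aff R) where
  carrier := {a | a.d = 0}
  mul_mem' := fun {a b} (ha : a.d = 0) (hb : b.d = 0) => by simp [ha, hb]
  one_mem' := rfl
  inv_mem' := fun {a} (ha : a.d = 0) => by simp [ha]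

open TrivSqZeroExt in
theorem opp {L : List α} (h1 : L.Nodup) (h2 : ∀ i, i ∈ L) (θ : MulAut (FreeGroup α)) (t : α) {P A Q T : FreeGroup α}
    (hP : P ∈ Av t) (hA : A ∈ Av t) (hQ : Q ∈ Av t) (hT : T = of t ∨ T = (of t)⁻¹) : θ (cb L) ≠ P * T * A * T⁻¹ * Q := by
  intro e
  let χ : FreeGroup α →* (ZMod 3)ˣ := lift fun i => if i = t then -1 else 1
  obtain ⟨i, hi⟩ : ∃ i, χ (θ (of i)) ≠ 1 := by
    by_contra! no
    have : χ.comp θ.toMonoidHom = 1 := FreeGroup.ext_hom _ _ no
    have := DFunLike.congr_fun this (θ.symm (of t))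
    simp only [MulEquiv.toMonoidHom_eq_coe, MonoidHom.comp_apply, MonoidHom.coe_coe, MulEquiv.apply_symm_apply, χ, lift_apply_of,
      if_true, MonoidHom.one_apply] at this
    exact absurd this (by decide)
  let ψ0 : FreeGroup α →* Aff (ZMod 3) := lift fun j => ⟨χ (θ (of j)), if j = i then 1 else 0⟩
  let ψ := ψ0.comp θ.symm.toMonoidHom
  have a1 : ∀ g, (ψ g).u = χ g := fun g => by
    have : pu.comp ψ0 = χ.comp θ.toMonoidHom := FreeGroup.ext_hom _ _ fun j => by simp [ψ0, pu]
    exact (DFunLike.congr_fun this (θ.symm g)).trans (by simp)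
  have a2 : ψ (θ (cb L)) ∉ stab := by
    obtain ⟨p, q, rfl⟩ := List.append_of_mem (h2 i)
    have n := List.nodup_middle.1 h1
    have k : ∀ l : List α, i ∉ l → ψ0 (cb l) ∈ stab := fun l hl => cb_mem _ _ fun j hj => pow_mem (by
      change (ψ0 (of j)).d = 0
      simp [ψ0, show j ≠ i from fun e => hl (e ▸ hj)]) _
    rw [show ψ (θ (cb (p ++ i :: q))) = ψ0 (cb p) * ψ0 (of i) ^ 3 * ψ0 (cb q) by simp [ψ, cb, mul_assoc],
      stab.mul_mem_cancel_right (k q fun h => (List.nodup_cons.1 n).1 (List.mem_append_right _ h)),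
      stab.mul_mem_cancel_left (k p fun h => (List.nodup_cons.1 n).1 (List.mem_append_left _ h))]
    change ¬ (_ : Aff _).d = 0
    rw [cube]
    simp only [ψ0, lift_apply_of, if_true]
    revert hi
    generalize χ (θ (of i)) = u
    revert u; decide
  let s : (DualNumber (ZMod 3))ˣ := ⟨inl 1 + inr 1, inl 1 - inr 1, by ext <;> simp, by ext <;> simp⟩
  let ω : FreeGroup α →* Aff (DualNumber (ZMod 3)) := lift fun j => if j = t then ⟨s, 0⟩ else ⟨1, inl (ψ (of j)).d⟩
  let K : Subgroup (Aff (DualNumber (ZMod 3))) :=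
    { carrier := {a | fst a.u.1 = 1}
      mul_mem' := fun {a b} (ha : _ = _) (hb : _ = _) => by simp [ha, hb]
      one_mem' := rfl
      inv_mem' := fun {a} (ha : _ = _) => by
        have := congrArg fst a.u.mul_inv
        rwa [fst_mul, ha, one_mul] at this }
  have b1 : ∀ g, ω g ∈ K := fun g => by
    have : (⊤ : Subgroup _) ≤ K.comap ω := by
      rw [← closure_range_of, Subgroup.closure_le]
      rintro _ ⟨j, rfl⟩
      change fst (ω (of j)).u.1 = 1
      by_cases h : j = t <;> simp [ω, h, s]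
    exact this (Subgroup.mem_top g)
  have b2 : ω (θ (cb L)) ∈ stab := cb_mem (ω.comp θ.toMonoidHom) _ fun j _ => by
    change (_ : Aff _).d = 0
    have : fst ((ω.comp θ.toMonoidHom) (of j)).u.1 = 1 := b1 (θ (of j))
    generalize (ω.comp θ.toMonoidHom) (of j) = z at this ⊢
    rw [cube, show (1 + z.u.1 + z.u.1 ^ 2) = 0 by
      ext
      · simp [this]; decide
      · simp [this, sq]; generalize snd _ = z; revert z; decide, zero_mul]
  have b3 : ∀ g ∈ Av t, (ψ g).u = 1 ∧ ω g = ⟨1, inl (ψ g).d⟩ := fun g hg => by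
    induction hg using Subgroup.closure_induction with
    | mem g h => obtain ⟨j, hj, rfl⟩ := h; simp [a1, χ, ω, show j ≠ t from hj]
    | one => simp; rfl
    | mul a b _ _ ha hb => rw [map_mul, map_mul, ha.2, hb.2]; exact ⟨by simp [ha.1, hb.1], by ext <;> simp [ha.1]⟩
    | inv a _ ha => rw [map_inv, map_inv, ha.2]; exact ⟨by simp [ha.1], by ext <;> simp [ha.1]⟩
  rw [e] at a2 b2
  apply a2
  change (_ : Aff _).d = 0 at b2 ⊢
  simp only [map_mul, map_inv, (b3 P hP).2, (b3 A hA).2, (b3 Q hQ).2] at b2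
  have c1 := congrArg fst b2
  have c2 := congrArg snd b2
  have c3 : (ψ A).d = 0 ∧ (ψ P).d + (ψ Q).d = 0 := by
    rcases hT with rfl | rfl <;> simp [ω, s] at c1 c2 <;> simp_all
  have d1 := (b3 P hP).1
  have d2 := (b3 A hA).1
  simp only [map_mul, map_inv]
  generalize ψ P = x at d1 c3 ⊢
  generalize ψ A = y at d2 c3 ⊢
  simp only [mul_d, mul_u, inv_d, inv_u, d1, d2, c3.1, one_mul, mul_one, mul_inv_cancel, Units.val_one, mul_zero, add_zero,
    mul_neg, Units.mul_inv_cancel_left]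
  linear_combination c3.2

theorem mu3 {L : List α} (h1 : L.Nodup) (h2 : ∀ i, i ∈ L) (θ : MulAut (FreeGroup α)) (t : α)
    (h : 0 < (θ (cb L)).toWord.countP fun y => y.1 = t) : 3 ≤ (θ (cb L)).toWord.countP fun y => y.1 = t := by
  let e : FreeGroup α →* Multiplicative (ZMod 3) := lift fun i => if i = t then .ofAdd 1 else 1
  have e1 : e (θ (cb L)) = 1 := cb_mem (e.comp θ.toMonoidHom) ⊥ fun j _ => by
    rw [Subgroup.mem_bot]; generalize (e.comp θ.toMonoidHom) (of j) = z; revert z; decide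
  have e2 : ∀ g ∈ Av t, e g = 1 := fun g hg => Av_le e ⊥ (fun i hi => by simp [e, hi]) hg
  have e3 : e (mk [(t, true)]) = .ofAdd 1 := by simp [e]
  have e4 : e (mk [(t, false)]) = (Multiplicative.ofAdd 1)⁻¹ := by simp [e]
  obtain ⟨n, hn⟩ := Nat.exists_eq_succ_of_ne_zero h.ne'
  obtain ⟨p, ⟨c, b⟩, q, a1, a2, a3, a4⟩ := split _ _ _ hn
  obtain rfl : c = t := by simpa using a3
  have a5 := mk_mem (t := c) (l := p) (by simpa using a2)
  have a6 := congrArg mk a1
  rw [mk_toWord, ← mul_mk, show mk ((c, b) :: q) = mk [(c, b)] * mk q from rfl] at a6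
  rw [hn]
  rcases n with _ | _ | n
  · have := mk_mem (t := c) (l := q) (by simpa using a4)
    rw [a6, map_mul, map_mul, e2 _ a5, e2 _ this] at e1
    cases b <;> simp only [e3, e4] at e1 <;> exact absurd e1 (by decide)
  · obtain ⟨p', ⟨c', b'⟩, q', rfl, a2', a3', a4'⟩ := split _ _ _ a4
    obtain rfl : c' = c := by simpa using a3'
    have a7 := mk_mem (t := c') (l := p') (by simpa using a2')
    have a8 := mk_mem (t := c') (l := q') (by simpa using a4')
    rw [← mul_mk, show mk ((c', b') :: q') = mk [(c', b')] * mk q' from rfl] at a6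
    have e5 := e1
    simp only [a6, map_mul, e2 _ a5, e2 _ a7, e2 _ a8] at e5
    cases b <;> cases b'
    · simp only [e4] at e5; exact absurd e5 (by decide)
    · exact absurd (by rw [a6]; simp only [mul_assoc]; rfl) (opp h1 h2 θ c' a5 a7 a8 (.inr rfl))
    · exact absurd (by rw [a6]; simp only [mul_assoc]; rfl) (opp h1 h2 θ c' a5 a7 a8 (.inl rfl))
    · simp only [e3] at e5; exact absurd e5 (by decide)
  · omega

end Pool.Agent.H.MP_1babb5_al
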