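import Pool.Agent.H.MP_1babb5_al.A

open FreeGroup hiding map_mul map_inv
open Finset Filter Topology

namespace Pool.Agent.H.MP_1babb5_al

variable {α : Type}

def wd (L : List α) : List (α × Bool) := L.flatMap fun i => List.replicate 3 (i, true)

theorem mk_wd (L : List α) : mk (wd L) = cb L := by
  induction L with
  | nil => rfl
  | cons i L ih =>
    rw [wd, List.flatMap_cons, ← mul_mk, cb, List.map_cons, List.prod_cons, ← cb, ← ih]
    congr 1

theorem wd_pos {L : List α} {y} (h : y ∈ wd L) : y.1 ∈ L ∧ y.2 = true := by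
  obtain ⟨i, h1, h2⟩ := List.mem_flatMap.1 h
  rw [List.eq_of_mem_replicate h2]; exact ⟨h1, rfl⟩

theorem wd_red (L : List α) : IsCyclicallyReduced (wd L) :=
  ⟨(List.pairwise_of_forall_mem_list fun a ha b hb _ => by rw [(wd_pos ha).2, (wd_pos hb).2]).isChain,
    fun a ha b hb _ => by rw [(wd_pos (List.mem_of_mem_getLast? ha)).2, (wd_pos (List.mem_of_mem_head? hb)).2]⟩

theorem wd_len (L : List α) : (wd L).length = 3 * L.length := by simp [wd, mul_comm]

def S (w : FreeGroup α) (N : ℕ) : Set (ConjClasses (FreeGroup α)) :=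
  {c | (∃ φ : MulAut (FreeGroup α), c = ConjClasses.mk (φ w)) ∧
    ∃ l, IsCyclicallyReduced l ∧ l.length = N ∧ c = ConjClasses.mk (mk l)}

theorem S_sub [Fintype α] (w : FreeGroup α) (N : ℕ) : (S w N).Finite ∧ (S w N).ncard ≤ (2 * Fintype.card α) ^ N := by
  have : S w N ⊆ Set.range fun l : List.Vector (α × Bool) N => ConjClasses.mk (mk l.1) := by
    rintro c ⟨-, l, -, h, rfl⟩; exact ⟨⟨l, h⟩, rfl⟩
  refine ⟨(Set.finite_range _).subset this, (Set.ncard_le_ncard this).trans ?_⟩
  rw [← Set.image_univ]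
  exact (Set.ncard_image_le Set.finite_univ).trans_eq (by simp [Set.ncard_univ, mul_comm])

variable [DecidableEq α]

theorem orb {x : α} {d v : FreeGroup α} (hd : d ∈ Av x) (hv : v ∈ Av x) :
    ∃ φ : MulAut (FreeGroup α), IsConj (φ (of x ^ 3 * d)) (of x ^ 3 * (v * d * v⁻¹)) := by
  let f (v : FreeGroup α) : FreeGroup α →* FreeGroup α := lift fun i => if i = x then v⁻¹ * of x * v else of i
  have a : ∀ v, ∀ g ∈ Av x, f v g = g := fun v g hg => MonoidHom.eqOn_closure (f := f v) (g := .id _)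
    (by rintro _ ⟨i, hi, rfl⟩; simp [f, show i ≠ x from hi]) hg
  have b : ∀ v ∈ Av x, (f v⁻¹).comp (f v) = .id _ := fun v hv => FreeGroup.ext_hom _ _ fun i => by
    by_cases h : i = x
    · subst h
      have : f v (of i) = v⁻¹ * of i * v := by simp [f]
      have e : f v⁻¹ (of i) = v * of i * v⁻¹ := by simp [f]
      simp [this, e, a _ v hv, mul_assoc]
    · simp [f, h]
  refine ⟨MonoidHom.toMulEquiv (f v) (f v⁻¹) (b v hv) (by simpa using b _ (inv_mem hv)), isConj_iff.2 ⟨v, ?_⟩⟩
  have : f v (of x) = v⁻¹ * of x * v := by simp [f]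
  simp only [MonoidHom.toMulEquiv_apply, map_mul, map_pow, a v d hd, this, pow_succ]
  simp [mul_assoc]

theorem sep {x : α} {g g' : FreeGroup α} (hg : g ∈ Av x) (hg' : g' ∈ Av x) (h1 : g' ≠ 1) (h2 : g' ≠ g⁻¹)
    (h : IsConj (of x ^ 3 * g) (of x ^ 3 * g')) : g = g' := by
  let ψ : FreeGroup α →* Equiv.Perm (FreeGroup α) := lift fun i => if i = x then Equiv.swap g 1 else Equiv.mulLeft (of i)
  have a : ∀ a ∈ Av x, ψ a = Equiv.mulLeft a := fun a ha => MonoidHom.eqOn_closure (f := ψ) (g := MulAction.toPermHom _ _)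
    (by rintro _ ⟨i, hi, rfl⟩; ext; simp [ψ, show i ≠ x from hi]) ha
  have b : ψ (of x ^ 3) = Equiv.swap g 1 := by simp [ψ, pow_succ]
  obtain ⟨c, hc⟩ := isConj_iff.1 (ψ.map_isConj h)
  have := DFunLike.congr_fun hc (c 1)
  simp only [map_mul, b, a g hg, a g' hg', Equiv.Perm.mul_apply, Equiv.Perm.coe_inv, Equiv.symm_apply_apply, Equiv.coe_mulLeft, mul_one,
    Equiv.swap_apply_left] at this
  generalize c 1 = p at this
  rw [Equiv.swap_apply_def] at this
  split_ifs at this with e1 e2
  · simpa [this] using e1.symm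
  · exact absurd (eq_inv_of_mul_eq_one_left (this ▸ e2)) h2
  · exact absurd (by simpa using this) h1

variable {n : ℕ}

def P (n m : ℕ) (u : List (Fin (n + 3) × Bool)) : Prop :=
  IsReduced u ∧ (∀ y ∈ u, y.1 ≠ 0) ∧ u.length = 3 * (n + 2) + 2 * (m + 1) ∧ (∃ a mid, u = a :: mid ++ [(a.1, !a.2)]) ∧
    ∃ v ∈ Av 0, mk u = v * cb ((List.finRange (n + 2)).map Fin.succ) * v⁻¹

theorem fam (n m : ℕ) : ∃ T : Finset (List (Fin (n + 3) × Bool)), (2 * n + 3) ^ m ≤ #T ∧ ∀ u ∈ T, P n m u := by
  have cj : ∀ (a : Fin (n + 3) × Bool) u, mk (a :: u ++ [(a.1, !a.2)]) = mk [a] * mk u * (mk [a])⁻¹ := fun a u => by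
    rw [inv_mk, mul_mk, mul_mk]; rfl
  induction m with
  | zero =>
    have n2 : (Fin.last (n + 2) : Fin (n + 3)) ≠ 0 := by simp [Fin.ext_iff]
    have p0 : ∀ y ∈ wd ((List.finRange (n + 2)).map Fin.succ), y.1 ≠ 0 := fun y hy => by
      obtain ⟨i, -, e⟩ := List.mem_map.1 (wd_pos hy).1
      exact e ▸ i.succ_ne_zero
    refine ⟨{(Fin.last _, false) :: wd ((List.finRange (n + 2)).map Fin.succ) ++ [(Fin.last _, true)]}, by simp, fun u hu => ?_⟩
    rw [mem_singleton.1 hu]
    refine ⟨List.isChain_append.2 ⟨List.isChain_cons.2 ⟨fun y hy e => ?_, (wd_red _).1⟩, List.isChain_singleton _,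
      fun a ha b hb _ => ?_⟩, fun y hy => ?_, by simp [wd_len], ⟨_, _, rfl⟩, mk [(Fin.last _, false)], mk_mem (by simpa using n2),
      by rw [← mk_wd]; exact cj (Fin.last _, false) _⟩
    · rw [List.finRange_succ] at hy
      simp [wd, List.replicate] at hy
      subst hy
      simp [Fin.ext_iff] at e
    · rw [List.finRange_succ] at ha
      obtain rfl : (Fin.last _, true) = b := by simpa using hb
      rw [wd, List.map_cons, List.flatMap_cons, List.replicate_succ, List.cons_append, List.getLast?_cons_cons] at ha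
      exact (wd_pos (L := _ :: _) (List.mem_of_mem_getLast? ha)).2
    · simp only [List.cons_append, List.mem_cons, List.mem_append, List.not_mem_nil, or_false] at hy
      rcases hy with rfl | h | rfl
      exacts [n2, p0 y h, n2]
  | succ m ih =>
    obtain ⟨T, h1, h2⟩ := ih
    let al (u : List (Fin (n + 3) × Bool)) : Finset (Fin (n + 3) × Bool) :=
      univ \ {(0, true), (0, false), ((u.headD (0, true)).1, !(u.headD (0, true)).2)}
    refine ⟨(T.sigma al).image fun x => x.2 :: x.1 ++ [(x.2.1, !x.2.2)], ?_, fun u hu => ?_⟩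
    · rw [card_image_of_injective _ fun ⟨u, a⟩ ⟨u', a'⟩ e => by
        simp only [List.cons_append, List.cons.injEq] at e
        obtain ⟨rfl, e⟩ := e
        rw [List.append_cancel_right e], card_sigma, pow_succ]
      refine (Nat.mul_le_mul_right _ h1).trans (card_nsmul_le_sum _ _ _ fun u _ => le_trans ?_ (le_card_sdiff _ _))
      have := card_le_three (a := ((0 : Fin (n + 3)), true)) (b := (0, false)) (c := ((u.headD (0, true)).1, !(u.headD (0, true)).2))
      simp only [card_univ, Fintype.card_prod, Fintype.card_fin, Fintype.card_bool]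
      omega
    · obtain ⟨⟨u, c⟩, hx, rfl⟩ := mem_image.1 hu
      obtain ⟨x1, x2⟩ := mem_sigma.1 hx
      obtain ⟨p1, p2, p3, ⟨a, mid, rfl⟩, v, p4, p5⟩ := h2 u x1
      have c0 : c.1 ≠ 0 := fun e => by obtain ⟨c, _ | _⟩ := c <;> simp_all [al]
      have c1 : c.1 = a.1 → c.2 = a.2 := fun e => by
        obtain ⟨c, _ | _⟩ := c <;> obtain ⟨a, _ | _⟩ := a <;> simp_all [al]
      refine ⟨List.isChain_append.2 ⟨List.isChain_cons.2 ⟨fun y hy => ?_, p1⟩, List.isChain_singleton _,
        fun y hy b hb => ?_⟩, fun y hy => ?_, by simp at p3 ⊢; omega, ⟨_, _, rfl⟩, mk [c] * v,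
        mul_mem (mk_mem (by simpa using c0)) p4, by rw [cj, p5]; group⟩
      · obtain rfl : a = y := by simpa using hy
        exact c1
      · obtain rfl : (c.1, !c.2) = b := by simpa using hb
        rw [← List.cons_append, List.getLast?_concat] at hy
        obtain rfl : (a.1, !a.2) = y := by simpa using hy
        exact fun e => by rw [c1 e.symm]
      · rcases List.mem_append.1 hy with h | h
        · rcases List.mem_cons.1 h with rfl | h
          exacts [c0, p2 y h]
        · rw [List.mem_singleton.1 h]; exact c0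

theorem cnt (n m : ℕ) : (2 * n + 3) ^ m ≤ (S (cb (List.finRange (n + 3))) (3 * n + 11 + 2 * m)).ncard := by
  obtain ⟨T, h1, h2⟩ := fam n m
  have d0 : cb ((List.finRange (n + 2)).map Fin.succ) ∈ Av (0 : Fin (n + 3)) := mk_wd _ ▸ mk_mem fun y hy => by
    obtain ⟨i, -, e⟩ := List.mem_map.1 (wd_pos hy).1
    exact e ▸ i.succ_ne_zero
  let e : FreeGroup (Fin (n + 3)) →* Multiplicative ℤ := lift fun _ => .ofAdd 1
  have e1 : ∀ u ∈ T, e (mk u) = .ofAdd (3 * (n + 2) : ℤ) := fun u hu => by
    obtain ⟨-, -, -, -, v, -, p⟩ := h2 u hu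
    rw [p, map_mul, map_mul, map_inv, mul_inv_cancel_comm, cb, map_list_prod]
    simp [e, Function.comp_def, ← ofAdd_nsmul, mul_comm]
  rw [← Set.ncard_coe_finset] at h1
  refine h1.trans (Set.ncard_le_ncard_of_injOn (fun u => ConjClasses.mk (of 0 ^ 3 * mk u)) (fun u hu => ?_)
    (fun u hu u' hu' h => ?_) (S_sub _ _).1)
  · obtain ⟨p1, p2, p3, ⟨a, mid, rfl⟩, v, p4, p5⟩ := h2 u hu
    obtain ⟨φ, h⟩ := orb d0 p4
    refine ⟨⟨φ, ?_⟩, List.replicate 3 (0, true) ++ (a :: mid ++ [(a.1, !a.2)]), ⟨List.isChain_append.2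
      ⟨List.isChain_replicate_of_rel _ fun _ => rfl, p1, fun y hy b hb e => ?_⟩, fun y hy b hb e => ?_⟩, by simp at p3 ⊢; omega,
      by rw [← mul_mk]; rfl⟩
    · rw [p5, List.finRange_succ (n := n + 2)]
      exact (ConjClasses.mk_eq_mk_iff_isConj.2 h).symm
    · obtain rfl : (0, true) = y := by simpa [List.replicate] using hy
      exact absurd e.symm (p2 b (List.mem_of_mem_head? hb))
    · obtain rfl : (0, true) = b := by simpa [List.replicate] using hb
      rw [← List.append_assoc, List.getLast?_concat] at hy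
      obtain rfl : (a.1, !a.2) = y := by simpa using hy
      exact absurd e (p2 a (by simp))
  · have := sep (mk_mem (h2 u hu).2.1) (mk_mem (h2 u' hu').2.1) (fun z => ?_) (fun z => ?_) (ConjClasses.mk_eq_mk_iff_isConj.1 h)
    · rw [← (h2 u hu).1.reduce_eq, ← (h2 u' hu').1.reduce_eq, ← toWord_mk, this, toWord_mk]
    · have := e1 u' hu'
      rw [z, MonoidHom.map_one, eq_comm, ofAdd_eq_one] at this
      omega
    · have := e1 u' hu'
      rw [z, map_inv, e1 u hu, ← ofAdd_neg] at this
      have := Multiplicative.ofAdd.injective this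
      omega

theorem gr (n : ℕ) : √(2 * n + 3) ≤ limsup (fun N : ℕ => ((S (cb (List.finRange (n + 3))) N).ncard : ℝ) ^ (N : ℝ)⁻¹) atTop := by
  refine le_of_forall_lt_imp_le_of_dense fun r hr => le_limsup_of_frequently_le ?_ ⟨2 * (n + 3), eventually_map.2 ?_⟩
  · rcases le_or_gt r 0 with r0 | r0
    · exact .of_forall fun N => r0.trans (by positivity)
    have q : r ^ 2 / (2 * n + 3) < 1 := (div_lt_one (by positivity)).2 ((Real.lt_sqrt r0.le).1 hr)
    have := ((tendsto_pow_atTop_nhds_zero_of_lt_one (by positivity) q).const_mul (r ^ (3 * n + 11))).eventually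
      (gt_mem_nhds (by simp : r ^ (3 * n + 11) * 0 < 1))
    refine frequently_atTop.2 fun N => ?_
    obtain ⟨m, m1, m2⟩ := (this.and (eventually_ge_atTop N)).exists
    refine ⟨3 * n + 11 + 2 * m, by omega, (Real.le_rpow_inv_iff_of_pos r0.le (Nat.cast_nonneg _) (by positivity)).2 ?_⟩
    rw [div_pow, ← mul_div_assoc, div_lt_one (by positivity), ← pow_mul, ← pow_add] at m1
    rw [Real.rpow_natCast]
    exact m1.le.trans (by exact_mod_cast cnt n m)
  · filter_upwards [eventually_gt_atTop 0] with N hN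
    rw [Real.rpow_inv_le_iff_of_pos (Nat.cast_nonneg _) (by positivity) (by positivity), Real.rpow_natCast]
    have := (S_sub (cb (List.finRange (n + 3))) N).2
    rw [Fintype.card_fin] at this
    exact_mod_cast this

end Pool.Agent.H.MP_1babb5_al
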